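import Mathlib

set_option maxHeartbeats 400000

open Metric

namespace Pool.Agent.Results.MP_c12391_an.No

/-- The slice `S(C, f, α)`. -/
def slice {X : Type*} [NormedAddCommGroup X] [NormedSpace ℝ X] (C : Set X) (f : X →L[ℝ] ℝ)
    (α : ℝ) : Set X :=
  {x ∈ C | sSup (f '' C) - α < f x}

/-- `x₀` is an almost preserved extreme point of `C`: every relatively weakly open subset of `C`
containing `x₀` contains a non-empty slice of `C`. -/
def IsAPEP {X : Type*} [NormedAddCommGroup X] [NormedSpace ℝ X] (C : Set X) (x₀ : X) : Prop :=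
  x₀ ∈ C ∧ ∀ W : Set X,
    (∃ U : Set (WeakSpace ℝ X), IsOpen U ∧ W = C ∩ (toWeakSpace ℝ X) ⁻¹' U) → x₀ ∈ W →
      ∃ (f : X →L[ℝ] ℝ) (α : ℝ), 0 < α ∧ (slice C f α).Nonempty ∧ slice C f α ⊆ W

/-- `0` is an almost preserved extreme point of the closed unit ball of `X`. -/
def ZeroAPEP (X : Type) [NormedAddCommGroup X] [NormedSpace ℝ X] : Prop :=
  IsAPEP (closedBall (0 : X) 1) 0

/-- The summands: Euclidean spaces of dimension `n + 1`. -/
abbrev E (n : ℕ) : Type := EuclideanSpace ℝ (Fin (n + 1))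

theorem weak_nbhd {X : Type*} [NormedAddCommGroup X] [NormedSpace ℝ X]
    {U : Set (WeakSpace ℝ X)} (hU : IsOpen U) (h0 : toWeakSpace ℝ X 0 ∈ U) :
    ∃ I : Finset (X →L[ℝ] ℝ), ∀ x : X, (∀ f ∈ I, f x = 0) → toWeakSpace ℝ X x ∈ U := by
  obtain ⟨V, hV, rfl⟩ := isOpen_induced_iff.1 hU
  obtain ⟨I, u, hu, hI⟩ := isOpen_pi_iff.1 hV _ h0
  refine ⟨I, fun x hx => hI fun f hf => ?_⟩
  have h1 := (hu f hf).2
  have h2 : f x = f 0 := by rw [hx f hf, map_zero]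
  change f x ∈ u f
  rw [h2]
  exact h1

theorem part1 : IsAPEP (closedBall (0 : lp E 1) 1) 0 := by
  refine ⟨mem_closedBall_self zero_le_one, ?_⟩
  rintro W ⟨U, hU, rfl⟩ ⟨_, h0⟩
  obtain ⟨I, hI⟩ := weak_nbhd hU h0
  set n := I.card with hn
  let L : E n →ₗ[ℝ] (I → ℝ) := LinearMap.pi fun f : I =>
    ((f : lp E 1 →L[ℝ] ℝ) : lp E 1 →ₗ[ℝ] ℝ).comp (lp.lsingle 1 n)
  have hker : LinearMap.ker L ≠ ⊥ := LinearMap.ker_ne_bot_of_finrank_lt (by simp [hn])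
  obtain ⟨w, hw, hw0⟩ := Submodule.exists_mem_ne_zero_of_ne_bot hker
  set x : E n := ‖w‖⁻¹ • w with hx
  have hx1 : ‖x‖ = 1 := by
    rw [hx, norm_smul, norm_inv, norm_norm, inv_mul_cancel₀ (norm_ne_zero_iff.2 hw0)]
  have hxL : L x = 0 := by
    rw [hx, map_smul, LinearMap.mem_ker.1 hw, smul_zero]
  set z : lp E 1 := lp.single 1 n x with hz
  have hz1 : ‖z‖ = 1 := by rw [hz, lp.norm_single (by norm_num), hx1]
  have hzU : toWeakSpace ℝ _ z ∈ U := hI z fun f hf => congrFun hxL ⟨f, hf⟩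
  have hopen : IsOpen ((toWeakSpace ℝ (lp E 1)) ⁻¹' U) :=
    hU.preimage (toWeakSpaceCLM ℝ (lp E 1)).continuous
  obtain ⟨r, hr, hball⟩ := Metric.isOpen_iff.1 hopen z hzU
  let g : lp E 1 →L[ℝ] ℝ := (innerSL ℝ x).comp (lp.evalCLM ℝ E 1 n)
  have hg : ∀ y : lp E 1, g y = inner ℝ x (y n) := fun y => rfl
  have hgz : g z = 1 := by
    rw [hg, hz, lp.single_apply_self, real_inner_self_eq_norm_sq, hx1]; norm_num
  have hgle : ∀ y : lp E 1, g y ≤ ‖y n‖ := by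
    intro y
    rw [hg]
    have := real_inner_le_norm x (y n)
    rwa [hx1, one_mul] at this
  have hyn : ∀ y : lp E 1, ‖y n‖ ≤ ‖y‖ := fun y => lp.norm_apply_le_norm (by norm_num) y n
  have hzb : z ∈ closedBall (0 : lp E 1) 1 := by simp [hz1]
  have hsup : sSup (g '' closedBall (0 : lp E 1) 1) = 1 := by
    refine IsGreatest.csSup_eq ⟨⟨z, hzb, hgz⟩, ?_⟩
    rintro _ ⟨y, hy, rfl⟩
    rw [mem_closedBall_zero_iff] at hy
    exact (hgle y).trans ((hyn y).trans hy)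
  have hα : 0 < min (r / 2) (r ^ 2 / 8) := lt_min (half_pos hr) (by positivity)
  refine ⟨g, min (r / 2) (r ^ 2 / 8), hα, ⟨z, hzb, by rw [hsup, hgz]; linarith⟩, ?_⟩
  rintro y ⟨hy, hy2⟩
  refine ⟨hy, hball ?_⟩
  rw [hsup] at hy2
  rw [mem_closedBall_zero_iff] at hy
  have m1 := min_le_left (r / 2) (r ^ 2 / 8)
  have m2 := min_le_right (r / 2) (r ^ 2 / 8)
  have h1 : ‖y - lp.single 1 n (y n)‖ = ‖y‖ - ‖y n‖ := by
    have := lp.norm_compl_sum_single (p := 1) (by norm_num) y {n}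
    simpa using this
  have h2 : ‖y n - x‖ ≤ r / 2 := by
    have h3 : ‖y n - x‖ ^ 2 ≤ (r / 2) ^ 2 := by
      rw [norm_sub_sq_real, real_inner_comm, ← hg, hx1]
      have h4 := (hyn y).trans hy
      have h5 : ‖y n‖ ^ 2 ≤ 1 := by
        have := norm_nonneg (y n)
        nlinarith
      nlinarith
    exact (pow_le_pow_iff_left₀ (norm_nonneg _) (half_pos hr).le two_ne_zero).1 h3
  have h3 : ‖(lp.single 1 n (y n) : lp E 1) - z‖ = ‖y n - x‖ := by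
    rw [hz, ← lp.single_sub, lp.norm_single (by norm_num)]
  rw [mem_ball, dist_eq_norm]
  have h4 : y - z = (y - lp.single 1 n (y n)) + (lp.single 1 n (y n) - z) := by abel
  have h5 := hgle y
  rw [h4]
  refine lt_of_le_of_lt (norm_add_le _ _) ?_
  rw [h1, h3]
  linarith

theorem part2 (n : ℕ) : ¬ IsAPEP (closedBall (0 : E n) 1) 0 := by
  rintro ⟨_, h⟩
  let U : Set (WeakSpace ℝ (E n)) :=
    {x | ∑ i, (EuclideanSpace.proj (𝕜 := ℝ) i ((toWeakSpace ℝ (E n)).symm x)) ^ 2 < 1}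
  have hU : IsOpen U := by
    refine isOpen_lt (continuous_finsetSum _ fun i _ => Continuous.pow ?_ 2) continuous_const
    exact WeakBilin.eval_continuous (topDualPairing ℝ (E n)).flip (EuclideanSpace.proj (𝕜 := ℝ) i)
  have hmem : ∀ x : E n, toWeakSpace ℝ (E n) x ∈ U ↔ ‖x‖ ^ 2 < 1 := by
    intro x
    rw [EuclideanSpace.real_norm_sq_eq]
    simp [U]
  obtain ⟨f, α, _, ⟨y, hy, hy2⟩, hsub⟩ := h _ ⟨U, hU, rfl⟩
    ⟨mem_closedBall_self zero_le_one, (hmem 0).2 (by simp)⟩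
  rw [mem_closedBall_zero_iff] at hy
  have hw : ∃ (w : E n) (t : ℝ), ‖w‖ = 1 ∧ 0 ≤ t ∧ t ≤ 1 ∧ y = t • w := by
    by_cases h0 : y = 0
    · exact ⟨EuclideanSpace.single 0 1, 0, by simp, le_rfl, zero_le_one, by simp [h0]⟩
    · have h1 : ‖y‖ ≠ 0 := norm_ne_zero_iff.2 h0
      refine ⟨‖y‖⁻¹ • y, ‖y‖, ?_, norm_nonneg _, hy, ?_⟩
      · rw [norm_smul, norm_inv, norm_norm, inv_mul_cancel₀ h1]
      · rw [smul_smul, mul_inv_cancel₀ h1, one_smul]
  obtain ⟨w, t, hw1, ht0, ht1, rfl⟩ := hw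
  have hu : ∃ u : E n, ‖u‖ = 1 ∧ f (t • w) ≤ f u := by
    rw [map_smul, smul_eq_mul]
    rcases le_total 0 (f w) with h1 | h1
    · exact ⟨w, hw1, by nlinarith⟩
    · exact ⟨-w, by rw [norm_neg, hw1], by rw [map_neg]; nlinarith⟩
  obtain ⟨u, hu1, hu2⟩ := hu
  have := hsub (show u ∈ slice (closedBall 0 1) f α from ⟨by simp [hu1], lt_of_lt_of_le hy2 hu2⟩)
  have h2 := (hmem u).1 this.2
  rw [hu1] at h2
  norm_num at h2

theorem result : ∃ (X : ℕ → Type) (_ : ∀ n, NormedAddCommGroup (X n))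
    (_ : ∀ n, NormedSpace ℝ (X n)) (_ : ∀ n, CompleteSpace (X n)),
    ZeroAPEP (lp X 1) ∧ ∀ n : ℕ, ¬ ZeroAPEP (X n) :=
  ⟨E, inferInstance, inferInstance, inferInstance, part1, part2⟩

end Pool.Agent.Results.MP_c12391_an.No
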